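import Pool.Agent.Lib.MP_c7f57c_an.Sparse

set_option autoImplicit false

namespace Pool.Agent.FS.RajCrit

open MeasureTheory Filter Topology Finset
open Pool.Agent.Lib.MP_c7f57c_an Pool.Agent.Lib.MP_c7f57c_an.Thr

lemma enum_list (F : ℕ → ℂ) (d₀ : ℕ) (L : List ℕ) :
    ∑ j ∈ range L.length, F (L.getD j d₀) = (L.map F).sum := by
  induction L with
  | nil => simp
  | cons a L ih =>
    rw [List.length_cons, sum_range_succ', List.map_cons, List.sum_cons, ← ih, add_comm]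
    simp

lemma enum_mem {D : Finset ℕ} {d₀ : ℕ} (h0 : d₀ ∈ D) (L : List ℕ) (hL : ∀ x ∈ L, x ∈ D) (j : ℕ) :
    L.getD j d₀ ∈ D := by
  rcases lt_or_ge j L.length with h | h
  · rw [List.getD_eq_getElem _ _ h]
    exact hL _ (List.getElem_mem h)
  · rw [List.getD_eq_default _ _ h]
    exact h0

/-- probability weights on a finite set are close to the frequencies of a finite list -/
lemma enum_weights (D : Finset ℕ) (w : ℕ → ℝ) (hw : ∀ d, 0 ≤ w d) (h1 : ∑ d ∈ D, w d = 1)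
    {ε : ℝ} (hε : 0 < ε) : ∃ (c : ℕ) (g : ℕ → ℕ), (∀ j, g j ∈ D) ∧
      ∀ F : ℕ → ℂ, (∀ d, ‖F d‖ ≤ 1) →
        ‖(∑ j ∈ range (c + 1), F (g j)) / ((c : ℂ) + 1) - ∑ d ∈ D, (w d : ℂ) * F d‖ ≤ ε := by
  obtain ⟨d₀, hd₀⟩ : D.Nonempty := by
    rcases D.eq_empty_or_nonempty with h | h
    · rw [h, sum_empty] at h1
      exact absurd h1 zero_ne_one
    · exact h
  obtain ⟨c, hc⟩ := exists_nat_gt (2 * (D.card : ℝ) / ε)
  have hN : (0 : ℝ) < (c : ℝ) + 1 := by positivity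
  set n : ℕ → ℕ := fun d => ⌊((c : ℝ) + 1) * w d⌋₊ with hn
  have hn1 : ∀ d, (n d : ℝ) ≤ ((c : ℝ) + 1) * w d := fun d =>
    Nat.floor_le (mul_nonneg hN.le (hw d))
  have hn2 : ∀ d, ((c : ℝ) + 1) * w d ≤ n d + 1 := fun d => (Nat.lt_floor_add_one _).le
  have hs1 : ((∑ d ∈ D, n d : ℕ) : ℝ) ≤ (c : ℝ) + 1 := by
    push_cast
    calc ∑ d ∈ D, (n d : ℝ) ≤ ∑ d ∈ D, ((c : ℝ) + 1) * w d := sum_le_sum fun d _ => hn1 d
      _ = (c : ℝ) + 1 := by rw [← mul_sum, h1, mul_one]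
  have hs2 : (c : ℝ) + 1 ≤ ((∑ d ∈ D, n d : ℕ) : ℝ) + D.card := by
    push_cast
    calc (c : ℝ) + 1 = ∑ d ∈ D, ((c : ℝ) + 1) * w d := by rw [← mul_sum, h1, mul_one]
      _ ≤ ∑ d ∈ D, ((n d : ℝ) + 1) := sum_le_sum fun d _ => hn2 d
      _ = _ := by rw [sum_add_distrib]; simp
  have hs1' : ∑ d ∈ D, n d ≤ c + 1 := by exact_mod_cast hs1
  obtain ⟨r, hr⟩ := Nat.exists_eq_add_of_le hs1'
  have hr' : (r : ℝ) ≤ D.card := by
    have : (c : ℝ) + 1 = ((∑ d ∈ D, n d : ℕ) : ℝ) + r := by exact_mod_cast hr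
    linarith
  set m : Multiset ℕ := (D.val.bind fun d => Multiset.replicate (n d) d) +
    Multiset.replicate r d₀ with hm
  have hlen : m.toList.length = c + 1 := by
    rw [Multiset.length_toList, hm, Multiset.card_add, Multiset.card_bind, Multiset.card_replicate,
      hr]
    congr 1
    simp
  have hmem : ∀ x ∈ m.toList, x ∈ D := by
    intro x hx
    rw [Multiset.mem_toList, hm, Multiset.mem_add] at hx
    rcases hx with hx | hx
    · obtain ⟨d, hd, hx⟩ := Multiset.mem_bind.1 hx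
      rw [Multiset.eq_of_mem_replicate hx]
      exact hd
    · rw [Multiset.eq_of_mem_replicate hx]
      exact hd₀
  refine ⟨c, fun j => m.toList.getD j d₀, fun j => enum_mem hd₀ _ hmem j, fun F hF => ?_⟩
  have hsum : ∑ j ∈ range (c + 1), F (m.toList.getD j d₀) =
      ∑ d ∈ D, (n d : ℂ) * F d + (r : ℂ) * F d₀ := by
    rw [← hlen, enum_list, Multiset.sum_map_toList, hm, Multiset.map_add, Multiset.sum_add,
      Multiset.map_bind, Multiset.sum_bind]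
    simp
  have hNc : ((c : ℂ) + 1) ≠ 0 := by exact_mod_cast hN.ne'
  have e : (∑ d ∈ D, (n d : ℂ) * F d + (r : ℂ) * F d₀) / ((c : ℂ) + 1) - ∑ d ∈ D, (w d : ℂ) * F d =
      (∑ d ∈ D, (((n d : ℝ) - ((c : ℝ) + 1) * w d : ℝ) : ℂ) * F d + (r : ℂ) * F d₀) /
        ((c : ℂ) + 1) := by
    rw [div_sub' hNc]
    congr 1
    push_cast
    simp only [sub_mul, sum_sub_distrib, mul_sum, mul_assoc]
    ring
  have hnorm : ‖(c : ℂ) + 1‖ = (c : ℝ) + 1 := by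
    have : ((c : ℂ) + 1) = (((c : ℝ) + 1 : ℝ) : ℂ) := by push_cast; ring
    rw [this, Complex.norm_real, Real.norm_of_nonneg hN.le]
  show ‖(∑ j ∈ range (c + 1), F (m.toList.getD j d₀)) / ((c : ℂ) + 1) - _‖ ≤ ε
  rw [hsum, e, norm_div, hnorm, div_le_iff₀ hN]
  have h2 : ‖∑ d ∈ D, (((n d : ℝ) - ((c : ℝ) + 1) * w d : ℝ) : ℂ) * F d‖ ≤ D.card := by
    refine (norm_sum_le _ _).trans ?_
    calc ∑ d ∈ D, ‖(((n d : ℝ) - ((c : ℝ) + 1) * w d : ℝ) : ℂ) * F d‖ ≤ ∑ d ∈ D, (1 : ℝ) := by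
          refine sum_le_sum fun d _ => ?_
          rw [norm_mul, Complex.norm_real, Real.norm_eq_abs]
          have h3 : |(n d : ℝ) - ((c : ℝ) + 1) * w d| ≤ 1 :=
            abs_le.2 ⟨by linarith [hn2 d], by linarith [hn1 d]⟩
          exact mul_le_one₀ h3 (norm_nonneg _) (hF d)
      _ = D.card := by simp
  have h4 : ‖(r : ℂ) * F d₀‖ ≤ D.card := by
    rw [norm_mul, Complex.norm_natCast]
    have := mul_le_mul_of_nonneg_left (hF d₀) (Nat.cast_nonneg (α := ℝ) r)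
    linarith
  rw [div_lt_iff₀ hε] at hc
  have h5 := norm_add_le (∑ d ∈ D, (((n d : ℝ) - ((c : ℝ) + 1) * w d : ℝ) : ℂ) * F d) ((r : ℂ) * F d₀)
  nlinarith

end Pool.Agent.FS.RajCrit
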