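import Pool.Agent.FS.RajCrit.Wie

set_option autoImplicit false

namespace Pool.Agent.FS.RajCrit

open MeasureTheory Filter Topology Finset
open Pool.Agent.Lib.MP_c7f57c_an Pool.Agent.Lib.MP_c7f57c_an.Thr

lemma grid_int {M : ℕ} (hM : 2 ≤ M) (a : ℕ → ℝ) {δ : ℝ} (hδ : 0 ≤ δ)
    (h0 : ∑ d ∈ range M, a d = 0)
    (h : ∀ j : ℕ, 0 < j → j < M → ‖∑ d ∈ range M, (a d : ℂ) * ch (j * d / M)‖ ≤ δ) (m : ℤ) :
    ‖∑ d ∈ range M, (a d : ℂ) * ch (m * ((d + 1 / 2) / M))‖ ≤ δ := by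
  have hM0 : (0 : ℤ) < M := by omega
  have hM' : (M : ℝ) ≠ 0 := by positivity
  obtain ⟨j, hj⟩ := Int.eq_ofNat_of_zero_le (Int.emod_nonneg m hM0.ne')
  have hlt : j < M := by
    have := Int.emod_lt_of_pos m hM0
    omega
  have hm : (m : ℝ) = M * (m / (M : ℤ) : ℤ) + j := by
    have := Int.mul_ediv_add_emod m M
    rw [hj] at this
    exact_mod_cast this.symm
  have e : ∀ d : ℕ, ch (m * ((d + 1 / 2) / M)) = ch (m / (2 * M)) * ch (j * d / M) := fun d => by
    have : (m : ℝ) * ((d + 1 / 2) / M) =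
        m / (2 * M) + (j * d / M + ((m / (M : ℤ) * d : ℤ) : ℝ)) := by
      push_cast
      generalize ((m / (M : ℤ) : ℤ) : ℝ) = q at hm
      rw [hm]
      field_simp
      ring
    rw [this, ch_add, ch_add, ch_int, mul_one]
  simp only [e, mul_left_comm _ (ch (m / (2 * M)))]
  rw [← mul_sum, norm_mul, norm_ch, one_mul]
  rcases Nat.eq_zero_or_pos j with rfl | hp
  · simp only [Nat.cast_zero, zero_mul, zero_div, ch_zero, mul_one]
    rw [← Complex.ofReal_sum, h0]
    simpa using hδ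
  · exact h j hp hlt

lemma grid_cnt (M : ℕ) (hM : 2 ≤ M) {η : ℝ} (hη : 0 < η) :
    ∑ d ∈ range M, (if ((d : ℝ) + 1 / 2) / M < η then (1 : ℝ) else 0) ≤ 2 * η * M := by
  have hM' : (0 : ℝ) < M := by positivity
  rw [sum_boole]
  have h1 : (range M).filter (fun d : ℕ => ((d : ℝ) + 1 / 2) / M < η) ⊆
      range ⌈η * M - 1 / 2⌉₊ := fun d hd => by
    have := (mem_filter.1 hd).2
    rw [div_lt_iff₀ hM'] at this
    exact mem_range.2 (Nat.lt_ceil.2 (by linarith))
  have h2 := card_le_card h1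
  rw [card_range] at h2
  refine le_trans (Nat.cast_le.2 h2) ?_
  rcases le_total (η * M - 1 / 2) 0 with h | h
  · rw [Nat.ceil_eq_zero.2 h, Nat.cast_zero]; positivity
  · have := Nat.ceil_lt_add_one h
    linarith

lemma grid_phi {η : ℝ} (hη : 0 < η) : ∃ φ : ℝ → ℝ, Continuous φ ∧ φ 0 = 0 ∧ φ 1 = 0 ∧
    (∀ y, φ y ≤ 1) ∧ ∀ M : ℕ, 2 ≤ M →
      ∑ d ∈ range M, (1 - φ (((d : ℝ) + 1 / 2) / M)) ≤ 4 * η * M := by
  refine ⟨fun y => max 0 (min 1 (min y (1 - y) / η)), by fun_prop, by simp, by simp,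
    fun y => max_le zero_le_one (min_le_left _ _), fun M hM => ?_⟩
  have hM' : (0 : ℝ) < M := by positivity
  have c1 := grid_cnt M hM hη
  have c2 : ∑ d ∈ range M, (if 1 - ((d : ℝ) + 1 / 2) / M < η then (1 : ℝ) else 0) ≤ 2 * η * M := by
    rw [← sum_range_reflect] at c1
    refine le_trans (le_of_eq (sum_congr rfl fun d hd => ?_)) c1
    have hd' := mem_range.1 hd
    have : (((M - 1 - d : ℕ) : ℝ) + 1 / 2) / M = 1 - ((d : ℝ) + 1 / 2) / M := by
      rw [Nat.cast_sub (by omega), Nat.cast_sub (by omega)]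
      field_simp
      ring
    rw [this]
  refine le_trans (sum_le_sum fun d _ => ?_) (le_trans (le_of_eq sum_add_distrib)
    ((add_le_add c1 c2).trans (le_of_eq (by ring))))
  generalize ((d : ℝ) + 1 / 2) / M = y
  have p := le_max_left 0 (min 1 (min y (1 - y) / η))
  beta_reduce
  split_ifs with h1 h2 h2
  · linarith
  · linarith
  · linarith
  · have : 1 ≤ min y (1 - y) / η := by
      rw [le_div_iff₀ hη, one_mul]
      exact le_min (not_lt.1 h1) (not_lt.1 h2)
    rw [min_eq_left this, max_eq_right zero_le_one]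
    norm_num

/-- small discrete Fourier coefficients on the grid give closeness to the Dirichlet kernel at all
real frequencies -/
lemma grid_real {ε : ℝ} (hε : 0 < ε) : ∃ δ : ℝ, 0 < δ ∧ ∀ (M : ℕ) (D : Finset ℕ) (w : ℕ → ℝ),
    2 ≤ M → D ⊆ range M → (∀ d, 0 ≤ w d) → ∑ d ∈ D, w d = 1 →
    (∀ j : ℕ, 0 < j → j < M → ‖∑ d ∈ D, (w d : ℂ) * ch (j * d / M)‖ ≤ δ) →
    ∀ t : ℝ, ‖∑ d ∈ D, (w d : ℂ) * ch (t * d)‖ ≤ ‖∑ d ∈ range M, ch t ^ d‖ / M + ε := by
  classical
  have hη : 0 < ε / 24 := by positivity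
  obtain ⟨φ, φc, φ0, φ1, φle, φs⟩ := grid_phi hη
  obtain ⟨C, hC, hW⟩ := wiener φ φc φ0 φ1 hη
  refine ⟨ε / (4 * C), by positivity, fun M D w hM hD hw h1 hj => ?_⟩
  have hM' : (0 : ℝ) < M := by positivity
  have hMc : (M : ℂ) ≠ 0 := by exact_mod_cast hM'.ne'
  obtain ⟨W, hWd⟩ : ∃ W : ℕ → ℝ, W = fun d => if d ∈ D then w d else 0 := ⟨_, rfl⟩
  have W0 : ∀ d, 0 ≤ W d := fun d => by rw [hWd]; dsimp only; split_ifs; exacts [hw d, le_rfl]
  have ext : ∀ f : ℕ → ℂ, ∑ d ∈ D, (w d : ℂ) * f d = ∑ d ∈ range M, (W d : ℂ) * f d := fun f => by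
    rw [← sum_subset hD (f := fun d => (W d : ℂ) * f d) fun d _ hd => by simp [hWd, hd]]
    exact sum_congr rfl fun d hd => by simp [hWd, hd]
  have W1 : ∑ d ∈ range M, W d = 1 := by
    rw [← sum_subset hD (f := W) fun d _ hd => by simp [hWd, hd], ← h1]
    exact sum_congr rfl fun d hd => by simp [hWd, hd]
  have u1 : ∑ _d ∈ range M, (1 : ℝ) / M = 1 := by
    rw [sum_const, card_range, nsmul_eq_mul]; field_simp
  obtain ⟨a, ha⟩ : ∃ a : ℕ → ℝ, a = fun d => W d - 1 / M := ⟨_, rfl⟩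
  obtain ⟨y, hy⟩ : ∃ y : ℕ → ℝ, y = fun d : ℕ => ((d : ℝ) + 1 / 2) / M := ⟨_, rfl⟩
  have a0 : ∑ d ∈ range M, a d = 0 := by
    simp only [ha]; rw [sum_sub_distrib, W1, u1, sub_self]
  have a2 : ∑ d ∈ range M, |a d| ≤ 2 := by
    refine le_trans (sum_le_sum (g := fun d => W d + 1 / M) fun d _ => ?_) ?_
    · simp only [ha]
      have : (0 : ℝ) ≤ 1 / M := by positivity
      exact abs_le.2 ⟨by linarith [W0 d], by linarith⟩
    · rw [sum_add_distrib, W1, u1]; norm_num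
  have hint : ∀ m : ℤ, ‖∑ d ∈ range M, (a d : ℂ) * ch (m * y d)‖ ≤ ε / (4 * C) := by
    simp only [hy]
    refine grid_int hM a (by positivity) a0 fun j j0 jM => ?_
    have z := Uniq.sum_ch_grid (Q := M) (by omega) 0 (m := j) fun hd => by
      have := Int.le_of_dvd (by omega) hd
      omega
    have : ∑ d ∈ range M, (a d : ℂ) * ch (j * d / M) = ∑ d ∈ range M, (W d : ℂ) * ch (j * d / M) -
        1 / M * ∑ d ∈ range M, ch ((j : ℤ) * ((d + 0) / M)) := by
      rw [mul_sum, ← sum_sub_distrib]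
      refine sum_congr rfl fun d _ => ?_
      simp only [ha, add_zero, Int.cast_natCast, mul_div_assoc]
      push_cast
      ring
    rw [this, z, mul_zero, sub_zero, ← ext fun d => ch (j * d / M)]
    exact hj j j0 jM
  have key : ∀ t : ℝ, ‖∑ d ∈ range M, (a d : ℂ) * φ (y d) * ch (t * d)‖ ≤ ε / 12 + ε / 4 := by
    intro t
    obtain ⟨T, c, hc, hT⟩ := hW (Int.fract (t * M))
      (abs_le.2 ⟨by linarith [Int.fract_nonneg (t * M)], (Int.fract_lt_one _).le⟩)
    have e : ∀ d : ℕ, ch (t * d) =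
        ch (-t / 2) * (ch (⌊t * M⌋ * y d) * ch (Int.fract (t * M) * y d)) := fun d => by
      rw [← ch_add, ← ch_add, ← add_mul, Int.floor_add_fract, hy]
      congr 1
      field_simp
      ring
    have e2 : ∑ d ∈ range M, (a d : ℂ) * φ (y d) * ch (t * d) = ch (-t / 2) *
        (∑ d ∈ range M, (a d : ℂ) * ch (⌊t * M⌋ * y d) *
          (φ (y d) * ch (Int.fract (t * M) * y d) - ∑ l ∈ T, c l * ch (l * y d)) +
        ∑ l ∈ T, c l * ∑ d ∈ range M, (a d : ℂ) * ch ((⌊t * M⌋ + l : ℤ) * y d)) := by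
      have : ∑ l ∈ T, c l * ∑ d ∈ range M, (a d : ℂ) * ch ((⌊t * M⌋ + l : ℤ) * y d) =
          ∑ d ∈ range M, (a d : ℂ) * ch (⌊t * M⌋ * y d) * ∑ l ∈ T, c l * ch (l * y d) := by
        simp only [mul_sum]
        rw [sum_comm]
        refine sum_congr rfl fun d _ => sum_congr rfl fun l _ => ?_
        rw [Int.cast_add, add_mul, ch_add]
        ring
      rw [this, ← sum_add_distrib, mul_sum]
      refine sum_congr rfl fun d _ => ?_
      rw [e d]
      ring
    rw [e2, norm_mul, norm_ch, one_mul]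
    refine (norm_add_le _ _).trans (add_le_add ?_ ?_)
    · refine (norm_sum_le _ _).trans (le_trans (sum_le_sum (g := fun d => |a d| * (ε / 24))
        fun d hd => ?_) ?_)
      · rw [norm_mul, norm_mul, norm_ch, mul_one, Complex.norm_real, Real.norm_eq_abs]
        refine mul_le_mul_of_nonneg_left (hT _ ?_) (abs_nonneg _)
        have : (d : ℝ) + 1 ≤ M := by exact_mod_cast mem_range.1 hd
        simp only [hy]
        exact ⟨by positivity, (div_le_one hM').2 (by linarith)⟩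
      · rw [← sum_mul]
        nlinarith
    · refine (norm_sum_le _ _).trans (le_trans (sum_le_sum (g := fun l => ‖c l‖ * (ε / (4 * C)))
        fun l _ => ?_) ?_)
      · rw [norm_mul]
        exact mul_le_mul_of_nonneg_left (hint _) (norm_nonneg _)
      · rw [← sum_mul]
        refine (mul_le_mul_of_nonneg_right hc (by positivity)).trans (le_of_eq ?_)
        field_simp
  have s1 : ∑ d ∈ range M, 1 / M * (1 - φ (y d)) ≤ ε / 6 := by
    rw [← mul_sum, hy, one_div, inv_mul_le_iff₀ hM']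
    have := φs M hM
    linarith
  have s2 : ∑ d ∈ range M, W d * (1 - φ (y d)) ≤ ε / 6 + (ε / 12 + ε / 4) := by
    have k := key 0
    simp only [zero_mul, ch_zero, mul_one] at k
    have k2 : ∑ d ∈ range M, (a d : ℂ) * φ (y d) = ((∑ d ∈ range M, a d * φ (y d) : ℝ) : ℂ) := by
      push_cast; rfl
    rw [k2, Complex.norm_real, Real.norm_eq_abs] at k
    have : ∑ d ∈ range M, W d * (1 - φ (y d)) = ∑ d ∈ range M, 1 / M * (1 - φ (y d)) +
        ∑ d ∈ range M, a d - ∑ d ∈ range M, a d * φ (y d) := by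
      rw [← sum_add_distrib, ← sum_sub_distrib]
      refine sum_congr rfl fun d _ => ?_
      simp only [ha]
      ring
    rw [this, a0]
    linarith [(abs_le.1 k).1]
  have nb : ∀ (f : ℕ → ℝ) (t : ℝ), (∀ d, 0 ≤ f d) →
      ‖∑ d ∈ range M, (f d : ℂ) * ch (t * d)‖ ≤ ∑ d ∈ range M, f d := fun f t hf =>
    (norm_sum_le _ _).trans (le_of_eq (sum_congr rfl fun d _ => by
      rw [norm_mul, norm_ch, mul_one, Complex.norm_real, Real.norm_of_nonneg (hf d)]))
  intro t
  have n1 := (nb (fun d => W d * (1 - φ (y d))) t fun d =>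
    mul_nonneg (W0 d) (sub_nonneg.2 (φle _))).trans s2
  have n2 := (nb (fun d => 1 / M * (1 - φ (y d))) t fun d =>
    mul_nonneg (by positivity) (sub_nonneg.2 (φle _))).trans s1
  have n3 := key t
  have fin : ∑ d ∈ range M, (W d : ℂ) * ch (t * d) = (∑ d ∈ range M, ch t ^ d) / M +
      (∑ d ∈ range M, ((W d * (1 - φ (y d)) : ℝ) : ℂ) * ch (t * d) +
      ∑ d ∈ range M, (a d : ℂ) * φ (y d) * ch (t * d) -
      ∑ d ∈ range M, ((1 / M * (1 - φ (y d)) : ℝ) : ℂ) * ch (t * d)) := by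
    rw [sum_div, ← sum_add_distrib, ← sum_sub_distrib, ← sum_add_distrib]
    refine sum_congr rfl fun d _ => ?_
    rw [← ch_nat_mul, mul_comm (d : ℝ) t]
    simp only [ha]
    push_cast
    ring
  rw [ext fun d => ch (t * d), fin]
  refine (norm_add_le _ _).trans (add_le_add (le_of_eq ?_) ?_)
  · rw [norm_div, Complex.norm_natCast]
  · refine (norm_sub_le _ _).trans ((add_le_add ((norm_add_le _ _).trans (add_le_add n1 n3))
      n2).trans (le_of_eq (by ring)))

end Pool.Agent.FS.RajCrit
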