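import Pool.Agent.FS.RajCrit.Wie

set_option autoImplicit false

namespace Pool.Agent.FS.RajCrit

open MeasureTheory Filter Topology Finset
open Pool.Agent.Lib.MP_c7f57c_an Pool.Agent.Lib.MP_c7f57c_an.Thr

lemma level_ch_fract (l : ℤ) (y : ℝ) : ch (l * Int.fract y) = ch (l * y) := by
  have e : (l : ℝ) * y = l * Int.fract y + ((l * ⌊y⌋ : ℤ) : ℝ) := by
    push_cast
    rw [← mul_add, Int.fract_add_floor]
  rw [e, ch_add, ch_int, mul_one]

lemma level_cos_fract (y : ℝ) :
    Real.cos (2 * Real.pi * Int.fract y) = Real.cos (2 * Real.pi * y) := by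
  have := level_ch_fract 1 y
  simp only [Int.cast_one, one_mul] at this
  rw [← ch_re, ← ch_re, this]

lemma level_int_ch (μ : Measure ℝ) [IsProbabilityMeasure μ] (k : ℝ) :
    Integrable (fun x : ℝ => ch (k * x)) μ := by
  refine Integrable.of_bound ?_ 1 (Eventually.of_forall fun x => (norm_ch _).le)
  exact (continuous_ch.comp (continuous_const.mul continuous_id)).aestronglyMeasurable

lemma level_phase (P M j : ℕ) (hM : 0 < M) (x : ℝ) :
    ch (j * ((⌊(P : ℝ) * M * x⌋ % (M : ℤ)).toNat : ℕ) / M) =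
      ch (j * P * x) * ch (-(j / M : ℝ) * Int.fract ((P : ℝ) * M * x)) := by
  have hM0 : (M : ℤ) ≠ 0 := by exact_mod_cast hM.ne'
  have hMr : (M : ℝ) ≠ 0 := by exact_mod_cast hM.ne'
  set n : ℤ := ⌊(P : ℝ) * M * x⌋ with hn
  have h1 : (((n % (M : ℤ)).toNat : ℕ) : ℤ) = n % (M : ℤ) :=
    Int.toNat_of_nonneg (Int.emod_nonneg _ hM0)
  have h2 : (((n % (M : ℤ)).toNat : ℕ) : ℝ) = (n : ℝ) - M * ((n / (M : ℤ) : ℤ) : ℝ) := by
    have h3 : n % (M : ℤ) = n - M * (n / (M : ℤ)) := Int.emod_def _ _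
    have h4 : ((((n % (M : ℤ)).toNat : ℕ) : ℤ) : ℝ) = ((n - M * (n / (M : ℤ)) : ℤ) : ℝ) := by
      rw [h1, h3]
    rw [Int.cast_natCast] at h4
    rw [h4, Int.cast_sub, Int.cast_mul, Int.cast_natCast]
  have h5 : (n : ℝ) = (P : ℝ) * M * x - Int.fract ((P : ℝ) * M * x) := by
    rw [hn, Int.self_sub_fract]
  have e : (j : ℝ) * ((n % (M : ℤ)).toNat : ℕ) / M =
      (j * P * x + -(j / M : ℝ) * Int.fract ((P : ℝ) * M * x)) +
        ((-(j * (n / (M : ℤ))) : ℤ) : ℝ) := by
    rw [h2, Int.cast_neg, Int.cast_mul, Int.cast_natCast]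
    generalize ((n / (M : ℤ) : ℤ) : ℝ) = q
    rw [h5]
    field_simp
    ring
  rw [e, ch_add, ch_int, mul_one, ch_add]

/-- a probability measure with small Fourier coefficients gives flat weights on the digits -/
lemma level {ε : ℝ} (hε : 0 < ε) : ∃ δ : ℝ, 0 < δ ∧ ∀ (P M : ℕ) (D : Finset ℕ) (μ : Measure ℝ)
    [IsProbabilityMeasure μ], 0 < P → 2 ≤ M → D ⊆ range M →
    (∀ᵐ x ∂μ, Int.fract ((P : ℝ) * M * x) ≠ 0 → (⌊(P : ℝ) * M * x⌋ % (M : ℤ)).toNat ∈ D) →
    (∀ k : ℤ, (P : ℤ) ≤ |k| → ‖∫ x, ch (k * x) ∂μ‖ ≤ δ) →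
    ∃ w : ℕ → ℝ, (∀ d, 0 ≤ w d) ∧ ∑ d ∈ D, w d = 1 ∧
      ∀ j : ℕ, 0 < j → j < M → ‖∑ d ∈ D, (w d : ℂ) * ch (j * d / M)‖ ≤ ε := by
  classical
  obtain ⟨C, hC, hW⟩ := wiener (fun y => (1 - Real.cos (2 * Real.pi * y)) / 2) (by fun_prop)
    (by simp) (by simp) (ε := ε / 8) (by positivity)
  refine ⟨min (1 / 2) (ε / (8 * C)), lt_min (by norm_num) (by positivity), ?_⟩
  intro P M D μ _ hP hM _ hae hF
  have hM0 : 0 < M := by omega
  set dig : ℝ → ℕ := fun x => (⌊(P : ℝ) * M * x⌋ % (M : ℤ)).toNat with hdig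
  set h : ℝ → ℝ := fun x => (1 - Real.cos (2 * Real.pi * ((P : ℝ) * M * x))) / 2 with hh
  have hdm : Measurable dig := by
    have h1 : Measurable fun x : ℝ => ⌊(P : ℝ) * M * x⌋ :=
      Int.measurable_floor.comp (measurable_const.mul measurable_id)
    exact (measurable_of_countable fun n : ℤ => (n % (M : ℤ)).toNat).comp h1
  have hc : Continuous h := by rw [hh]; fun_prop
  have h0 : ∀ x, 0 ≤ h x := fun x => by
    have := Real.cos_le_one (2 * Real.pi * ((P : ℝ) * M * x))
    simp only [hh]; linarith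
  have h1 : ∀ x, h x ≤ 1 := fun x => by
    have := Real.neg_one_le_cos (2 * Real.pi * ((P : ℝ) * M * x))
    simp only [hh]; linarith
  have hfr : ∀ x, h x = (1 - Real.cos (2 * Real.pi * Int.fract ((P : ℝ) * M * x))) / 2 :=
    fun x => by rw [level_cos_fract]
  set f : ℕ → ℝ → ℝ := fun d x => if dig x = d then h x else 0 with hf
  have hfm : ∀ d, Measurable (f d) := fun d =>
    Measurable.ite (hdm (measurableSet_singleton d)) hc.measurable measurable_const
  have hf0 : ∀ d x, 0 ≤ f d x := fun d x => by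
    simp only [hf]; split_ifs
    · exact h0 x
    · exact le_rfl
  have hf1 : ∀ d x, f d x ≤ 1 := fun d x => by
    simp only [hf]; split_ifs
    · exact h1 x
    · exact zero_le_one
  have hfi : ∀ d, Integrable (f d) μ := fun d =>
    Integrable.of_bound (hfm d).aestronglyMeasurable 1 (Eventually.of_forall fun x => by
      rw [Real.norm_eq_abs, abs_of_nonneg (hf0 d x)]; exact hf1 d x)
  set u : ℕ → ℝ := fun d => ∫ x, f d x ∂μ with hu
  have hu0 : ∀ d, 0 ≤ u d := fun d => integral_nonneg (hf0 d)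
  have key : ∀ g : ℕ → ℂ, ∑ d ∈ D, (u d : ℂ) * g d = ∫ x, (h x : ℂ) * g (dig x) ∂μ := by
    intro g
    have e1 : ∀ d, (u d : ℂ) * g d = ∫ x, (f d x : ℂ) * g d ∂μ := fun d => by
      rw [integral_mul_const, integral_complex_ofReal]
    simp only [e1]
    have hint : ∀ d ∈ D, Integrable (fun x => (f d x : ℂ) * g d) μ := fun d _ =>
      ((hfi d).ofReal (𝕜 := ℂ)).mul_const (g d)
    rw [← integral_finsetSum D hint]
    refine integral_congr_ae ?_
    filter_upwards [hae] with x hx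
    by_cases hxD : dig x ∈ D
    · rw [Finset.sum_eq_single (dig x)]
      · simp [hf]
      · intro b _ hb
        simp [hf, Ne.symm hb]
      · intro hn; exact absurd hxD hn
    · have hz : Int.fract ((P : ℝ) * M * x) = 0 := by
        by_contra hne
        exact hxD (hx hne)
      have hx0 : h x = 0 := by rw [hfr, hz]; simp
      simp [hf, hx0]
  have hWeq : ∑ d ∈ D, u d = ∫ x, h x ∂μ := by
    have := key fun _ => 1
    simp only [mul_one] at this
    rw [integral_complex_ofReal] at this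
    exact_mod_cast this
  have hW4 : 1 / 4 ≤ ∑ d ∈ D, u d := by
    have hi := level_int_ch μ ((P : ℝ) * M)
    have e2 : ∫ x, Real.cos (2 * Real.pi * ((P : ℝ) * M * x)) ∂μ =
        (∫ x, ch ((P : ℝ) * M * x) ∂μ).re := by
      have := Complex.reCLM.integral_comp_comm hi
      simpa only [Complex.reCLM_apply, ch_re] using this
    have hci : Integrable (fun x : ℝ => Real.cos (2 * Real.pi * ((P : ℝ) * M * x))) μ := by
      have := Complex.reCLM.integrable_comp hi
      simpa only [Complex.reCLM_apply, ch_re] using this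
    have e3 : ∫ x, h x ∂μ = (1 - (∫ x, ch ((P : ℝ) * M * x) ∂μ).re) / 2 := by
      simp only [hh]
      rw [integral_div, integral_sub (integrable_const _) hci, e2]
      simp
    have hk := hF ((P : ℤ) * M) (by
      rw [abs_of_nonneg (by positivity)]
      have : (1 : ℤ) ≤ M := by exact_mod_cast hM0
      have : (0 : ℤ) ≤ P := by positivity
      nlinarith)
    have hk' : ‖∫ x, ch ((P : ℝ) * M * x) ∂μ‖ ≤ 1 / 2 := by
      have := hk.trans (min_le_left _ _)
      simpa only [Int.cast_mul, Int.cast_natCast] using this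
    have := (Complex.re_le_norm (∫ x, ch ((P : ℝ) * M * x) ∂μ)).trans hk'
    rw [hWeq, e3]; linarith
  have hWpos : 0 < ∑ d ∈ D, u d := by linarith
  refine ⟨fun d => u d / ∑ d ∈ D, u d, fun d => div_nonneg (hu0 d) hWpos.le, ?_, ?_⟩
  · rw [← Finset.sum_div, div_self hWpos.ne']
  intro j hj hjM
  have hMr : (0 : ℝ) < M := by exact_mod_cast hM0
  have hs : |(-(j / M : ℝ))| ≤ 1 := by
    rw [abs_neg, abs_of_nonneg (by positivity), div_le_one hMr]
    exact_mod_cast hjM.le
  obtain ⟨T, c, hcC, happ⟩ := hW _ hs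
  set F : ℝ → ℂ := fun x => (h x : ℂ) * ch (j * (dig x : ℕ) / M) with hFd
  set G : ℝ → ℂ := fun x => ∑ l ∈ T, c l * ch ((((j : ℤ) + l * M) * P : ℤ) * x) with hGd
  have hFi : Integrable F μ := by
    refine Integrable.of_bound ?_ 1 (Eventually.of_forall fun x => ?_)
    · refine Measurable.aestronglyMeasurable ?_
      exact (Complex.measurable_ofReal.comp hc.measurable).mul
        ((measurable_of_countable fun d : ℕ => ch (j * d / M)).comp hdm)
    · simp only [hFd]
      rw [norm_mul, norm_ch, mul_one, Complex.norm_real, Real.norm_eq_abs, abs_of_nonneg (h0 x)]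
      exact h1 x
  have hGl : ∀ l ∈ T, Integrable (fun x : ℝ => c l * ch ((((j : ℤ) + l * M) * P : ℤ) * x)) μ :=
    fun l _ => (level_int_ch μ _).const_mul _
  have hGi : Integrable G μ := integrable_finsetSum T hGl
  have hFG : ∀ x, ‖F x - G x‖ ≤ ε / 8 := by
    intro x
    have ha := happ (Int.fract ((P : ℝ) * M * x)) ⟨Int.fract_nonneg _, (Int.fract_lt_one _).le⟩
    have e : F x - G x = ch (j * P * x) *
        ((((1 - Real.cos (2 * Real.pi * Int.fract ((P : ℝ) * M * x))) / 2 : ℝ) : ℂ) *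
          ch (-(j / M : ℝ) * Int.fract ((P : ℝ) * M * x)) -
          ∑ l ∈ T, c l * ch (l * Int.fract ((P : ℝ) * M * x))) := by
      have eG : G x = ch (j * P * x) * ∑ l ∈ T, c l * ch (l * Int.fract ((P : ℝ) * M * x)) := by
        simp only [hGd]
        rw [Finset.mul_sum]
        refine Finset.sum_congr rfl fun l _ => ?_
        rw [level_ch_fract, mul_left_comm, ← ch_add]
        congr 2
        push_cast
        ring
      have eF : F x = (h x : ℂ) *
          (ch (j * P * x) * ch (-(j / M : ℝ) * Int.fract ((P : ℝ) * M * x))) := by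
        rw [← level_phase P M j hM0 x]
      rw [eG, eF, ← hfr x]
      ring
    rw [e, norm_mul, norm_ch, one_mul]
    exact ha
  have hA : ‖∫ x, F x ∂μ - ∫ x, G x ∂μ‖ ≤ ε / 8 := by
    rw [← integral_sub hFi hGi]
    have := norm_integral_le_of_norm_le_const (μ := μ) (Eventually.of_forall hFG)
    simpa using this
  have hB : ‖∫ x, G x ∂μ‖ ≤ ε / 8 := by
    simp only [hGd]
    rw [integral_finsetSum T hGl]
    refine (norm_sum_le _ _).trans ?_
    have hl : ∀ l ∈ T, ‖∫ x, c l * ch ((((j : ℤ) + l * M) * P : ℤ) * x) ∂μ‖ ≤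
        ‖c l‖ * (ε / (8 * C)) := by
      intro l _
      rw [integral_const_mul, norm_mul]
      refine mul_le_mul_of_nonneg_left ((hF _ ?_).trans (min_le_right _ _)) (norm_nonneg _)
      have hne : (j : ℤ) + l * M ≠ 0 := by
        intro h0
        have hd : (M : ℤ) ∣ (j : ℤ) := ⟨-l, by linarith⟩
        have hd' : M ∣ j := by exact_mod_cast hd
        exact absurd (Nat.le_of_dvd hj hd') (by omega)
      have h1 : (1 : ℤ) ≤ |(j : ℤ) + l * M| := Int.one_le_abs hne
      have hP0 : (0 : ℤ) ≤ P := by positivity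
      rw [abs_mul, abs_of_nonneg hP0]
      nlinarith
    refine (Finset.sum_le_sum hl).trans ?_
    rw [← Finset.sum_mul]
    calc (∑ l ∈ T, ‖c l‖) * (ε / (8 * C)) ≤ C * (ε / (8 * C)) :=
          mul_le_mul_of_nonneg_right hcC (by positivity)
      _ = ε / 8 := by field_simp
  have hFn : ‖∫ x, F x ∂μ‖ ≤ ε / 4 := by
    have := norm_le_norm_add_norm_sub' (∫ x, F x ∂μ) (∫ x, G x ∂μ)
    linarith
  have e4 : ∑ d ∈ D, ((u d / ∑ d ∈ D, u d : ℝ) : ℂ) * ch (j * d / M) =
      (∫ x, F x ∂μ) / ((∑ d ∈ D, u d : ℝ) : ℂ) := by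
    have := key fun d => ch (j * d / M)
    simp only [hFd]
    rw [← this, Finset.sum_div]
    refine Finset.sum_congr rfl fun d _ => ?_
    rw [Complex.ofReal_div]
    ring
  rw [e4, norm_div, Complex.norm_real, Real.norm_eq_abs, abs_of_pos hWpos, div_le_iff₀ hWpos]
  nlinarith

end Pool.Agent.FS.RajCrit
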