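import Pool.Agent.FS.RajCrit.Grid
import Pool.Agent.FS.RajCrit.Enum
import Pool.Agent.FS.RajCrit.Level

set_option autoImplicit false

namespace Pool.Agent.FS.RajCrit

open MeasureTheory Filter Topology Finset
open Pool.Agent.Lib.MP_c7f57c_an Pool.Agent.Lib.MP_c7f57c_an.Thr
open Pool.Agent.Lib.MP_c7f57c_an.Gen (P psi P_pos P_posR P_mono lt_P P_succR)

variable {M c : ℕ → ℕ} {g : ℕ → ℕ → ℕ} {D : ℕ → Finset ℕ}

lemma norm_int_neg {Ω : Type} [MeasurableSpace Ω] (μ : Measure Ω) (Y : Ω → ℝ) (t : ℝ) :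
    ‖∫ ω, ch (-t * Y ω) ∂μ‖ = ‖∫ ω, ch (t * Y ω) ∂μ‖ := by
  simp only [neg_mul, ch_neg]
  rw [integral_conj, RCLike.norm_conj]

lemma coef_real (hM : ∀ n, 2 ≤ M n) (h : ∀ n j, g n j < M n)
    (ha : ∀ ε > 0, ∀ᶠ n in atTop, ∀ t, ‖ph M g c n t‖ ≤ psi M n t + ε) {ε : ℝ} (hε : 0 < ε) :
    ∃ R : ℝ, 0 < R ∧ ∀ k : ℝ, R ≤ k → ‖∫ ω, ch (k * Y M g c ω) ∂(Gen.PP c)‖ < ε := by
  obtain ⟨L, hL⟩ := exists_nat_one_div_lt (half_pos hε)
  have h0 : 0 < ε / (2 * (L + 1)) := by positivity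
  obtain ⟨m0, hm0⟩ := eventually_atTop.1 (ha _ h0)
  refine ⟨P M (m0 + L), P_posR hM _, fun k hk => ?_⟩
  have hex : ∃ m, 2 * k ≤ P M m := ⟨⌈2 * k⌉₊, (Nat.le_ceil _).trans (by
    exact_mod_cast (lt_P hM _).le)⟩
  classical
  have hm := Nat.find_spec hex
  have hQp := P_posR hM (m0 + L)
  have hlarge : m0 + L + 1 ≤ Nat.find hex := by
    by_contra hc
    have : (P M (Nat.find hex) : ℝ) ≤ P M (m0 + L) := by
      exact_mod_cast P_mono hM (show Nat.find hex ≤ m0 + L by omega)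
    linarith
  obtain ⟨m, hn⟩ : ∃ m, Nat.find hex = m + (L + 1) := ⟨Nat.find hex - (L + 1), by omega⟩
  have hm' := Nat.find_min hex (show m + L < Nat.find hex by omega)
  rw [hn] at hm
  have b1 := Gen.prod_psi_le hM m L k (not_le.1 hm').le hm
  have b2 := (norm_coef_le (c := c) hM h m (L + 1) k).trans
    (prod_ph_le h0.le m (L + 1) k fun i => hm0 (m + i) (by omega) k)
  have b3 : ((L + 1 : ℕ) : ℝ) * (ε / (2 * (L + 1))) = ε / 2 := by push_cast; field_simp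
  linarith

lemma coef_cocompact (hM : ∀ n, 2 ≤ M n) (h : ∀ n j, g n j < M n)
    (ha : ∀ ε > 0, ∀ᶠ n in atTop, ∀ t, ‖ph M g c n t‖ ≤ psi M n t + ε) :
    Tendsto (fun t : ℝ => ∫ ω, ch (t * Y M g c ω) ∂(Gen.PP c)) (cocompact ℝ) (𝓝 0) := by
  rw [Metric.tendsto_nhds]
  intro ε hε
  obtain ⟨R, -, hR⟩ := coef_real (c := c) hM h ha hε
  rw [cocompact_eq_atBot_atTop, eventually_sup]
  constructor
  · filter_upwards [eventually_le_atBot (-R)] with t ht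
    rw [dist_zero_right, ← norm_int_neg]
    exact hR _ (by linarith)
  · filter_upwards [eventually_ge_atTop R] with t ht
    rw [dist_zero_right]
    exact hR _ ht

/-- the digit of a point that is not on the grid -/
lemma digit_mem (hM : ∀ n, 2 ≤ M n) {d : ℕ → ℕ} (hd : ∀ n, d n < M n) (n : ℕ) {x : ℝ}
    (hx : x = ∑' k, (d k : ℝ) / P M (k + 1)) (hf : Int.fract ((P M n : ℝ) * M n * x) ≠ 0) :
    (⌊(P M n : ℝ) * M n * x⌋ % (M n : ℤ)).toNat = d n := by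
  obtain ⟨s, hs⟩ := Gen.head_int hM d n
  have h1 : (0 : ℝ) < M n := by have := hM n; positivity
  have h2 := P_posR hM n
  have h3 := Gen.tail_bounds hM hd (n + 1)
  have h4 := P_posR hM (n + 1)
  rw [Finset.sum_range_succ, hs, ← hx] at h3
  have e1 : (s : ℝ) / P M n + d n / P M (n + 1) = (s * M n + d n) / P M (n + 1) := by
    rw [P_succR]; field_simp
  rw [e1, ← add_div, div_le_iff₀ h4, le_div_iff₀ h4, P_succR] at h3
  have a1 : ((s * M n + d n : ℕ) : ℝ) ≤ (P M n : ℝ) * M n * x := by push_cast; linarith [h3.1]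
  have a2 : (P M n : ℝ) * M n * x ≤ ((s * M n + d n : ℕ) : ℝ) + 1 := by push_cast; linarith [h3.2]
  have a3 : (P M n : ℝ) * M n * x < ((s * M n + d n : ℕ) : ℝ) + 1 := by
    refine lt_of_le_of_ne a2 fun he => hf ?_
    rw [he, Int.fract_natCast_add, Int.fract_one]
  have a4 : ⌊(P M n : ℝ) * M n * x⌋ = ((s * M n + d n : ℕ) : ℤ) := by
    rw [Int.floor_eq_iff]
    exact ⟨by exact_mod_cast a1, by exact_mod_cast a3⟩
  rw [a4, ← Int.natCast_mod, Int.toNat_natCast, Nat.mul_add_mod_of_lt (hd n)]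

/-- the flatness condition on the digit sets -/
def Flat (M : ℕ → ℕ) (D : ℕ → Finset ℕ) : Prop :=
  ∀ ε : ℝ, 0 < ε → ∀ᶠ n in atTop, ∃ w : ℕ → ℝ, (∀ d, 0 ≤ w d) ∧ ∑ d ∈ D n, w d = 1 ∧
    ∀ j : ℕ, 0 < j → j < M n → ‖∑ d ∈ D n, (w d : ℂ) * ch (j * d / M n)‖ ≤ ε

lemma flat_of_measure (hM : ∀ n, 2 ≤ M n) (hD : ∀ n, D n ⊆ range (M n)) (μ : Measure ℝ)
    [IsProbabilityMeasure μ]
    (hK : μ {x : ℝ | ∃ d : ℕ → ℕ, (∀ n, d n ∈ D n) ∧ x = ∑' n, (d n : ℝ) / P M (n + 1)}ᶜ = 0)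
    (hz : Tendsto (fun t : ℝ => ∫ x, ch (t * x) ∂μ) (cocompact ℝ) (𝓝 0)) : Flat M D := by
  intro ε hε
  obtain ⟨δ, hδ, H⟩ := level hε
  have h1 := Metric.tendsto_nhds.1 hz δ hδ
  rw [cocompact_eq_atBot_atTop, eventually_sup] at h1
  obtain ⟨R, hR⟩ := eventually_atTop.1 h1.2
  filter_upwards [eventually_ge_atTop ⌈R⌉₊] with n hn
  refine H (P M n) (M n) (D n) μ (P_pos hM n) (hM n) (hD n) ?_ fun k hk => ?_
  · have hK' : ∀ᵐ x ∂μ, x ∈ {x : ℝ | ∃ d : ℕ → ℕ, (∀ n, d n ∈ D n) ∧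
        x = ∑' n, (d n : ℝ) / P M (n + 1)} := hK
    filter_upwards [hK'] with x hx hf
    obtain ⟨d, hd, hx⟩ := hx
    rw [digit_mem hM (fun k => mem_range.1 (hD k (hd k))) n hx hf]
    exact hd n
  · have b1 : R ≤ |(k : ℝ)| := by
      have b2 : (n : ℝ) ≤ P M n := by exact_mod_cast (lt_P hM n).le
      have b3 : (P M n : ℝ) ≤ |(k : ℝ)| := by exact_mod_cast hk
      have b4 : (⌈R⌉₊ : ℝ) ≤ n := by exact_mod_cast hn
      linarith [Nat.le_ceil R]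
    have b5 := hR _ b1
    rw [dist_zero_right] at b5
    rcases abs_cases (k : ℝ) with h | h
    · rw [h.1] at b5; exact b5.le
    · rw [h.1, norm_int_neg μ (fun x => x)] at b5; exact b5.le

lemma exists_lists (hM : ∀ n, 2 ≤ M n) (hD : ∀ n, D n ⊆ range (M n)) (hne : ∀ n, (D n).Nonempty)
    (hF : Flat M D) : ∃ (c : ℕ → ℕ) (g : ℕ → ℕ → ℕ), (∀ n j, g n j ∈ D n) ∧
      ∀ ε > 0, ∀ᶠ n in atTop, ∀ t, ‖ph M g c n t‖ ≤ psi M n t + ε := by
  let S : ℕ → Set ℝ := fun n => {e | 0 ≤ e ∧ ∃ (c : ℕ) (g : ℕ → ℕ), (∀ j, g j ∈ D n) ∧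
    ∀ t, ‖ph M (fun _ => g) (fun _ => c) n t‖ ≤ psi M n t + e}
  have hb : ∀ n, BddBelow (S n) := fun n => ⟨0, fun e he => he.1⟩
  have hS : ∀ n, (S n).Nonempty := fun n => by
    obtain ⟨d, hd⟩ := hne n
    exact ⟨1, zero_le_one, 0, fun _ => d, fun _ => hd, fun t =>
      (norm_ph_le _ _ _ _ _).trans (by linarith [Gen.psi_nonneg M n t])⟩
  have h1 : ∀ n : ℕ, ∃ e ∈ S n, e < sInf (S n) + 1 / ((n : ℝ) + 1) := fun n =>
    Real.lt_sInf_add_pos (hS n) (by positivity)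
  choose e he he' using h1
  choose c g hg hg' using fun n => (he n).2
  refine ⟨c, g, hg, fun ε hε => ?_⟩
  obtain ⟨δ, hδ, H⟩ := grid_real (show 0 < ε / 3 by positivity)
  have h2 := (tendsto_one_div_add_atTop_nhds_zero_nat (𝕜 := ℝ)).eventually
    (gt_mem_nhds (show 0 < ε / 3 by positivity))
  filter_upwards [hF δ hδ, h2] with n ⟨w, w0, w1, w2⟩ hn t
  have h3 : 2 * ε / 3 ∈ S n := by
    obtain ⟨c', g', a1, a2⟩ := enum_weights (D n) w w0 w1 (show 0 < ε / 3 by positivity)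
    refine ⟨by positivity, c', g', a1, fun s => ?_⟩
    have a3 := a2 (fun d => ch (s * (d / P M (n + 1)))) fun d => (norm_ch _).le
    have a4 := H (M n) (D n) w (hM n) (hD n) w0 w1 w2 (s / P M (n + 1))
    have a5 : ∀ d : ℕ, s / P M (n + 1) * d = s * (d / P M (n + 1)) := fun d => by ring
    simp only [a5] at a4
    have a6 := norm_sub_norm_le (ph M (fun _ => g') (fun _ => c') n s)
      (∑ d ∈ D n, (w d : ℂ) * ch (s * (d / P M (n + 1))))
    unfold psi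
    unfold ph at a6 ⊢
    linarith
  have h4 := csInf_le (hb n) h3
  have h5 : ‖ph M g c n t‖ ≤ psi M n t + e n := hg' n t
  linarith [he' n]

lemma measure_of_flat (hM : ∀ n, 2 ≤ M n) (hD : ∀ n, D n ⊆ range (M n))
    (hne : ∀ n, (D n).Nonempty) (hF : Flat M D) : ∃ μ : Measure ℝ, IsProbabilityMeasure μ ∧
      μ {x : ℝ | ∃ d : ℕ → ℕ, (∀ n, d n ∈ D n) ∧ x = ∑' n, (d n : ℝ) / P M (n + 1)}ᶜ = 0 ∧
      Tendsto (fun t : ℝ => ∫ x, ch (t * x) ∂μ) (cocompact ℝ) (𝓝 0) := by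
  obtain ⟨c, g, hg, ha⟩ := exists_lists hM hD hne hF
  have h : ∀ n j, g n j < M n := fun n j => mem_range.1 (hD n (hg n j))
  have := Gen.prob_PP c
  have hc := continuous_Y (c := c) hM h
  refine ⟨(Gen.PP c).map (Y M g c), Measure.isProbabilityMeasure_map hc.measurable.aemeasurable,
    ?_, ?_⟩
  · refine measure_mono_null (t := (Set.range (Y M g c))ᶜ) (Set.compl_subset_compl.2 ?_) ?_
    · rintro _ ⟨ω, rfl⟩
      exact ⟨fun n => g n (ω n), fun n => hg n _, rfl⟩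
    · rw [Measure.map_apply hc.measurable (isCompact_range hc).isClosed.measurableSet.compl]
      simp
  · refine (coef_cocompact (c := c) hM h ha).congr fun t => ?_
    rw [integral_map hc.measurable.aemeasurable]
    exact (continuous_ch.comp (continuous_const.mul continuous_id)).aestronglyMeasurable

end Pool.Agent.FS.RajCrit
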