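import Pool.Agent.Lib.MP_c7f57c_an.Sparse

set_option autoImplicit false

namespace Pool.Agent.FS.RajCrit

open MeasureTheory Filter Topology Finset
open Pool.Agent.Lib.MP_c7f57c_an Pool.Agent.Lib.MP_c7f57c_an.Thr

lemma wie_one (f : ℝ → ℂ) (hf : Continuous f) (h01 : f 0 = f 1) {ε : ℝ} (hε : 0 < ε) :
    ∃ (T : Finset ℤ) (c : ℤ → ℂ),
      ∀ y ∈ Set.Icc (0 : ℝ) 1, ‖f y - ∑ l ∈ T, c l * ch (l * y)‖ ≤ ε := by
  have : Fact (0 < (1 : ℝ)) := ⟨one_pos⟩
  let F : C(AddCircle (1 : ℝ), ℂ) :=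
    ⟨AddCircle.liftIco 1 0 f, AddCircle.liftIco_zero_continuous h01 hf.continuousOn⟩
  have hF : ∀ y ∈ Set.Icc (0 : ℝ) 1, F (y : AddCircle (1 : ℝ)) = f y := fun y hy => by
    rcases hy.2.lt_or_eq with h | h
    · exact AddCircle.liftIco_zero_coe_apply ⟨hy.1, h⟩
    · subst h
      rw [← h01, AddCircle.coe_period, ← AddCircle.coe_zero]
      exact AddCircle.liftIco_zero_coe_apply ⟨le_rfl, one_pos⟩
  have h1 : F ∈ closure
      (Submodule.span ℂ (Set.range (fourier (T := 1))) : Set C(AddCircle (1 : ℝ), ℂ)) := by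
    rw [← Submodule.topologicalClosure_coe, span_fourier_closure_eq_top]
    trivial
  obtain ⟨p, hp, hd⟩ := Metric.mem_closure_iff.1 h1 ε hε
  obtain ⟨c, rfl⟩ := Finsupp.mem_span_range_iff_exists_finsupp.1 hp
  refine ⟨c.support, c, fun y hy => ?_⟩
  have h2 := (ContinuousMap.dist_apply_le_dist (y : AddCircle (1 : ℝ))).trans hd.le
  rw [hF y hy, dist_eq_norm] at h2
  have h3 : (c.sum fun i a => a • fourier (T := 1) i) (y : AddCircle (1 : ℝ)) =
      ∑ l ∈ c.support, c l * ch (l * y) := by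
    rw [Finsupp.sum, ContinuousMap.sum_apply]
    exact Finset.sum_congr rfl fun l _ => by
      rw [ContinuousMap.smul_apply, fourier_eq_ch, smul_eq_mul]
  rwa [h3] at h2

/-- uniform approximation of `φ y * ch (s * y)` on `[0,1]` by trigonometric polynomials whose
coefficient sum is bounded uniformly in `s` -/
lemma wiener (φ : ℝ → ℝ) (hφ : Continuous φ) (h0 : φ 0 = 0) (h1 : φ 1 = 0) {ε : ℝ} (hε : 0 < ε) :
    ∃ C : ℝ, 0 < C ∧ ∀ s : ℝ, |s| ≤ 1 → ∃ (T : Finset ℤ) (c : ℤ → ℂ), ∑ l ∈ T, ‖c l‖ ≤ C ∧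
      ∀ y ∈ Set.Icc (0 : ℝ) 1, ‖(φ y : ℂ) * ch (s * y) - ∑ l ∈ T, c l * ch (l * y)‖ ≤ ε := by
  have hc := continuous_ch
  choose T c hT using fun s : ℝ => wie_one (fun y => (φ y : ℂ) * ch (s * y)) (by fun_prop)
    (by simp [h0, h1]) (half_pos hε)
  obtain ⟨B, hB⟩ := (isCompact_Icc (a := (0 : ℝ)) (b := 1)).exists_bound_of_continuousOn
    hφ.continuousOn
  have hB0 : 0 ≤ B := (norm_nonneg _).trans (hB 0 ⟨le_rfl, zero_le_one⟩)
  have hδ : 0 < ε / (16 * (B + 1)) := by positivity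
  obtain ⟨S, -, hS, hcov⟩ := (isCompact_Icc (a := (-1 : ℝ)) (b := 1)).finite_cover_balls hδ
  refine ⟨1 + ∑ s ∈ hS.toFinset, ∑ l ∈ T s, ‖c s l‖, by positivity, fun s hs => ?_⟩
  obtain ⟨r, hr, hsr⟩ := Set.mem_iUnion₂.1 (hcov (abs_le.1 hs))
  refine ⟨T r, c r, ?_, fun y hy => ?_⟩
  · have := Finset.single_le_sum (f := fun s => ∑ l ∈ T s, ‖c s l‖)
      (fun s _ => by positivity) (hS.mem_toFinset.2 hr)
    linarith
  · have h2 := hT r y hy
    have h3 : ‖(φ y : ℂ) * ch (s * y) - (φ y : ℂ) * ch (r * y)‖ ≤ ε / 2 := by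
      rw [← mul_sub, norm_mul, Complex.norm_real]
      have h4 : |s * y - r * y| ≤ ε / (16 * (B + 1)) := by
        rw [← sub_mul, abs_mul, abs_of_nonneg hy.1]
        have h5 : |s - r| < ε / (16 * (B + 1)) := by simpa [Real.dist_eq] using hsr
        exact (mul_le_of_le_one_right (abs_nonneg _) hy.2).trans h5.le
      calc ‖φ y‖ * ‖ch (s * y) - ch (r * y)‖ ≤ (B + 1) * (8 * (ε / (16 * (B + 1)))) :=
            mul_le_mul ((hB y hy).trans (by linarith)) ((norm_ch_sub _ _).trans (by linarith))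
              (norm_nonneg _) (by linarith)
        _ = ε / 2 := by field_simp; ring
    calc _ ≤ _ := norm_sub_le_norm_sub_add_norm_sub _ ((φ y : ℂ) * ch (r * y)) _
      _ ≤ ε := by linarith

end Pool.Agent.FS.RajCrit
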